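import Pool.Agent.W37.SG.Stm2

/-!
MP_9a3597_al, project SG: assembly of `S_INF`.
-/

namespace Pool.Agent.W37.SG

theorem inf_of (D1 : S_D1) (D2 : S_D2) (D3 : S_D3) (D4 : S_D4) (D5 : S_D5) (DC : S_DC)
    (TR : S_TR) (X1 : S_X1) (X2 : S_X2) (X3 : S_X3) (XP : S_XP) (CLS : S_CLS) (LAB : S_LAB)
    (GAM : S_GAM) (BND : S_BND) (UNI : S_UNI) (PHI : S_PHI) (TRANS : S_TRANS) (ABQ : S_ABQ)
    (AC : S_AC) (DISP : S_DISP) (EE : S_EE) (LAM : S_LAM) (DHY : S_DHY) (AB : S_AB)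
    (IRR : S_IRR) (PAR : S_PAR) (CH : S_CH) (LIE : S_LIE) (J1 : S_J1) (ALG : S_ALG)
    (INV : S_INV) (TAY : S_TAY) (JJ : S_JJ) : S_INF := by
  intro p _ hp s ⟨Q, Qk, htri, htau, htr, hcc⟩
  have TH : TreeHyp p s Q Qk := ⟨hp, htri, htau, htr, hcc⟩
  have hprop := X2 D1 D2 D3 D4 DC TR X1 p s Q Qk TH
  obtain ⟨X, hX⟩ := X3 D2 D4 DC X1 p s Q Qk TH hprop
  obtain ⟨Γ, j0, n, a, hG⟩ := GAM D1 D2 D3 D4 D5 DC TR CLS LAB p s Q Qk TH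
  have hB := BND D1 D2 D3 D4 DC XP p s Q X Γ j0 n a hp htri htau hX hG
  obtain ⟨J, α, hsJ, hj0, hα, hconst⟩ := UNI D1 D2 D3 D4 D5 DC XP p s Q X Γ j0 n a _ htri htau
    hX hG hB
  have hA := AC D1 D2 D3 D4 DC XP p s Q X Γ j0 n a J α htri hX hG hsJ hj0 hα hconst
  obtain ⟨Φ, hΦ⟩ := PHI D1 D3 D4 DC XP p s Q X htri hX
  have hBH : BHyp p s Q X J α Φ := by
    refine ⟨hp, htri, htau, hX.mem, ?_, hA, hΦ⟩
    intro j hj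
    obtain ⟨_, _, h3, h4⟩ := XP D1 D3 D4 DC p s Q X htri hX (j - s)
    have e : s + (j - s) = j := by omega
    rw [e] at h3 h4
    exact ⟨h3, h4⟩
  obtain ⟨e, hE⟩ := EE D4 DISP p s Q X J α Φ hBH
  obtain ⟨Λ, hL⟩ := LAM D4 DISP p s Q X J α Φ e hBH hE
  obtain ⟨D, hD⟩ := DHY D4 p s Q X J α Φ e Λ hBH hE hL
  by_cases h0 : ∀ f ∈ Λ, ∀ x, D f x = 0
  · obtain ⟨k, T, h1, h2, h3⟩ := AB D1 D2 D3 D4 DC TRANS p s Q X J α Φ e Λ D hBH hE hL hD h0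
    have := ABQ D1 D2 D3 D4 D5 DC TR CLS p s Q Qk TH k (s + 2) T h1 h2 h3
    omega
  · obtain ⟨C, hC⟩ := CH D1 D2 D3 D4 D5 p s Q X J α Φ e Λ hBH hE hL
    obtain ⟨DQ, hLie, hext⟩ := LIE D4 IRR p s Q X J α Φ e Λ D C hBH hE hL hD hC
    refine JJ D4 TRANS INV TAY J1 ALG PAR p Q α _ _ DQ C hp htri htau hLie hC ?_
    push Not at h0
    obtain ⟨f, hf, x, hx⟩ := h0
    refine ⟨fun x => (f x : ℚ_[p]), Submodule.subset_span ⟨f, hf, rfl⟩, ?_⟩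
    rw [hext f hf]
    intro hz
    have := congrFun hz x
    simp only [Pi.zero_apply] at this
    exact hx (PadicInt.ext (by rw [this]; rfl))

end Pool.Agent.W37.SG
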