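import Mathlib

/-!
MP_9a3597_al (p-adic space groups of finite coclass with point group of given coclass).
Definitions for the final statement and for the core (tree groups).
-/

namespace Pool.Agent.W37.SG

universe u

/-- The finite `p`-group `G` (order `p^n`, class `c`) has coclass `n - c = s`. -/
def CoclassEq (p s : ℕ) (G : Type u) [Group G] : Prop :=
  ∃ c : ℕ, IsLeast {c : ℕ | (⊤ : Subgroup G).lowerCentralSeries c = ⊥} c ∧
    Nat.card G = p ^ (c + s)

/-- The finite `p`-group `G` has coclass at most `s`. -/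
def CoclassLE (p s : ℕ) (G : Type u) [Group G] : Prop :=
  ∃ c : ℕ, IsLeast {c : ℕ | (⊤ : Subgroup G).lowerCentralSeries c = ⊥} c ∧
    Nat.card G ≠ 0 ∧ Nat.card G ≤ p ^ (c + s)

/-- The subgroup `Q` (a finite `p`-group) has coclass at most `s`. -/
def SubCoclassLE (p s : ℕ) {G : Type u} [Group G] (Q : Subgroup G) : Prop :=
  ∃ c : ℕ, IsLeast {c : ℕ | Q.lowerCentralSeries c = ⊥} c ∧
    Nat.card Q ≠ 0 ∧ Nat.card Q ≤ p ^ (c + s)

/-- The closure of the `(i+1)`-st term of the lower central series of `R`. -/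
def gammaBar (R : Type u) [Group R] [TopologicalSpace R] [IsTopologicalGroup R] (i : ℕ) :
    Subgroup R :=
  ((⊤ : Subgroup R).lowerCentralSeries i).topologicalClosure

instance gammaBar_normal (R : Type u) [Group R] [TopologicalSpace R] [IsTopologicalGroup R]
    (i : ℕ) : (gammaBar R i).Normal :=
  Subgroup.is_normal_topologicalClosure _

/-- `R` is a pro-`p` group: a profinite group all of whose open normal subgroups have
`p`-power index. -/
structure IsProP (p : ℕ) (R : Type u) [Group R] [TopologicalSpace R] : Prop where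
  top : IsTopologicalGroup R
  compact : CompactSpace R
  t2 : T2Space R
  disc : TotallyDisconnectedSpace R
  pindex : ∀ U : Subgroup R, U.Normal → IsOpen (U : Set R) → ∃ n : ℕ, U.index = p ^ n

/-- `R` is a `p`-adic space group with translation subgroup `T`: `R` is pro-`p`, `T` is a closed
normal subgroup isomorphic to `ℤ_p ^ d`, `d ≥ 1`, the point group `R/T` is a finite `p`-group
acting faithfully on `T` by conjugation. -/
structure IsSpaceGroup (p : ℕ) [Fact p.Prime] (R : Type u) [Group R] [TopologicalSpace R]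
    (T : Subgroup R) : Prop where
  prop : IsProP p R
  closed : IsClosed (T : Set R)
  normal : T.Normal
  lattice : ∃ d : ℕ, 1 ≤ d ∧ Nonempty (T ≃ₜ* Multiplicative (Fin d → ℤ_[p]))
  findex : ∃ n : ℕ, T.index = p ^ n
  faithful : ∀ r : R, (∀ t ∈ T, r * t = t * r) → r ∈ T

/-- `R` has finite coclass: the quotients `R/γ_{i+1}(R)` are finite of bounded coclass. -/
def FiniteCoclass (p : ℕ) (R : Type u) [Group R] [TopologicalSpace R] [IsTopologicalGroup R] :
    Prop :=
  ∃ r : ℕ, ∀ i : ℕ, CoclassLE p r (R ⧸ gammaBar R i)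

/-- The final statement: for every odd prime `p` and every `s ≥ 1` there is `N` such that among
any `N + 1` `p`-adic space groups of finite coclass whose point groups have coclass `s` two are
isomorphic as topological groups. -/
def S_MAIN : Prop :=
  ∀ (p : ℕ) [Fact p.Prime], p ≠ 2 → ∀ s : ℕ, 1 ≤ s → ∃ N : ℕ,
    ∀ (R : Fin (N + 1) → Type u) [∀ i, Group (R i)] [∀ i, TopologicalSpace (R i)]
      [∀ i, IsTopologicalGroup (R i)] (T : ∀ i, Subgroup (R i)) [∀ i, (T i).Normal],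
      (∀ i, IsSpaceGroup p (R i) (T i)) → (∀ i, FiniteCoclass p (R i)) →
      (∀ i, CoclassEq p s (R i ⧸ T i)) →
      ∃ i j, i ≠ j ∧ Nonempty (R i ≃ₜ* R j)

/-! ### Lattices -/

/-- The action of `P` on `ℤ_p ^ d` through `ρ` is uniserial: any two invariant submodules of
finite index are comparable. -/
def UniserialRep (p d : ℕ) [Fact p.Prime] {P : Type} [Group P]
    (ρ : P →* ((Fin d → ℤ_[p]) ≃ₗ[ℤ_[p]] (Fin d → ℤ_[p]))) : Prop :=
  ∀ L L' : Submodule ℤ_[p] (Fin d → ℤ_[p]),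
    (∀ g : P, ∀ x ∈ L, ρ g x ∈ L) → (∀ g : P, ∀ x ∈ L', ρ g x ∈ L') →
    (∃ n : ℕ, ∀ x, (p : ℤ_[p]) ^ n • x ∈ L) → (∃ n : ℕ, ∀ x, (p : ℤ_[p]) ^ n • x ∈ L') →
    L ≤ L' ∨ L' ≤ L

/-- Interface 1: the rank of a faithful uniserial lattice for a finite `p`-group of coclass at
most `s` is bounded in terms of `p` and `s` (`p` odd). -/
def S_RANK : Prop :=
  ∀ (p : ℕ) [Fact p.Prime], p ≠ 2 → ∀ s : ℕ, ∃ D : ℕ, ∀ (d : ℕ) (P : Type) [Group P] [Finite P],
    IsPGroup p P → CoclassLE p s P →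
    ∀ ρ : P →* ((Fin d → ℤ_[p]) ≃ₗ[ℤ_[p]] (Fin d → ℤ_[p])), Function.Injective ρ →
    UniserialRep p d ρ → d ≤ D

/-! ### Tree groups -/

/-- Triangular permutations of the sequences `x : ℕ → ZMod p`: the difference `(g x)_i - x_i`
depends only on `x_0, …, x_{i-1}`. -/
def IsTri (p : ℕ) (g : Equiv.Perm (ℕ → ZMod p)) : Prop :=
  ∀ (i : ℕ) (x y : ℕ → ZMod p), (∀ j < i, x j = y j) → g x i - x i = g y i - y i

/-- Extension of a finite sequence by `0`. -/
def ext0 (p v : ℕ) (y : Fin v → ZMod p) : ℕ → ZMod p :=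
  fun i => if h : i < v then y ⟨i, h⟩ else 0

/-- The sum `τ_v(g)` of the labels of `g` at level `v`. -/
noncomputable def tau (p : ℕ) [NeZero p] (v : ℕ) (g : Equiv.Perm (ℕ → ZMod p)) : ZMod p :=
  ∑ y : Fin v → ZMod p, (g (ext0 p v y) v - ext0 p v y v)

/-- `g` moves only the coordinates `< k`. -/
def IsLvl (p k : ℕ) (g : Equiv.Perm (ℕ → ZMod p)) : Prop :=
  ∀ (x : ℕ → ZMod p) (i : ℕ), k ≤ i → g x i = x i

/-- `g` fixes the coordinates `< k`. -/
def IsKer (p k : ℕ) (g : Equiv.Perm (ℕ → ZMod p)) : Prop :=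
  ∀ (x : ℕ → ZMod p) (i : ℕ), i < k → g x i = x i

/-- Interface 2 (finite level): a group of triangular permutations of level `k`, with all `τ_v`
(`v < k`) nonzero on it and of coclass at most `s`, has `k` bounded in terms of `p`, `s`. -/
def S_FIN : Prop :=
  ∀ (p : ℕ) [Fact p.Prime], p ≠ 2 → ∀ s : ℕ, ∃ K : ℕ, ∀ (k : ℕ)
    (Q : Subgroup (Equiv.Perm (ℕ → ZMod p))),
    (∀ g ∈ Q, IsTri p g ∧ IsLvl p k g) → (∀ v < k, ∃ g ∈ Q, tau p v g ≠ 0) →
    SubCoclassLE p s Q → k ≤ K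

/-- Interface 3: from a faithful uniserial lattice of a finite `p`-group to a tree group. -/
def S_TREE : Prop :=
  ∀ (p : ℕ) [Fact p.Prime], p ≠ 2 → ∀ (d : ℕ) (P : Type) [Group P] [Finite P], IsPGroup p P →
    1 ≤ d →
    ∀ ρ : P →* ((Fin d → ℤ_[p]) ≃ₗ[ℤ_[p]] (Fin d → ℤ_[p])), Function.Injective ρ →
    UniserialRep p d ρ →
    ∃ k : ℕ, d = (p - 1) * p ^ k ∧ ∃ Q : Subgroup (Equiv.Perm (ℕ → ZMod p)),
      (∀ g ∈ Q, IsTri p g ∧ IsLvl p k g) ∧ (∀ v < k, ∃ g ∈ Q, tau p v g ≠ 0) ∧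
      ∃ φ : P →* Q, Function.Surjective φ

/-- The level `k` image of a triangular permutation, as a relation: `h` agrees with `g` on the
coordinates `< k` and fixes the coordinates `≥ k`. -/
def IsTrunc (p k : ℕ) (g h : Equiv.Perm (ℕ → ZMod p)) : Prop :=
  ∀ (x : ℕ → ZMod p) (i : ℕ), h x i = if i < k then g x i else x i

/-- Interface 4 (infinite level): there is no group `Q` of triangular permutations with all
`τ_v` nonzero on it, all of whose level `k` quotients have coclass at most `s`. The level `k`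
quotient is given as the group `Qk k` of the truncations of the elements of `Q`. -/
def S_INF : Prop :=
  ∀ (p : ℕ) [Fact p.Prime], p ≠ 2 → ∀ s : ℕ,
    ¬ ∃ (Q : Subgroup (Equiv.Perm (ℕ → ZMod p))) (Qk : ℕ → Subgroup (Equiv.Perm (ℕ → ZMod p))),
      (∀ g ∈ Q, IsTri p g) ∧ (∀ v, ∃ g ∈ Q, tau p v g ≠ 0) ∧
      (∀ k h, h ∈ Qk k ↔ ∃ g ∈ Q, IsTrunc p k g h) ∧ (∀ k, SubCoclassLE p s (Qk k))

end Pool.Agent.W37.SG
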