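import Pool.Agent.W37.SG.AsmInf
import Pool.Agent.W490.SG.D1
import Pool.Agent.W140.SG.D2
import Pool.Agent.W585.SG.D3
import Pool.Agent.W538.SG.D4
import Pool.Agent.W303.SG.D5
import Pool.Agent.W281.SG.DC
import Pool.Agent.W654.SG.Tr
import Pool.Agent.W237.SG.X1
import Pool.Agent.W237.SG.X2
import Pool.Agent.W899.SG.X3
import Pool.Agent.W753.SG.XP
import Pool.Agent.W376.SG.Cls
import Pool.Agent.W563.SG.Lab
import Pool.Agent.W465.SG.Gam
import Pool.Agent.W494.SG.Bnd
import Pool.Agent.W883.SG.Uni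
import Pool.Agent.W160.SG.Phi
import Pool.Agent.W481.SG.Trans
import Pool.Agent.W465.SG.Abq
import Pool.Agent.W577.SG.Ac
import Pool.Agent.W585.SG.Disp
import Pool.Agent.W348.SG.EE
import Pool.Agent.W450.SG.LAM
import Pool.Agent.W61.SG.DHY
import Pool.Agent.W821.SG.AB
import Pool.Agent.W804.SG.IRR
import Pool.Agent.W418.SG.Par
import Pool.Agent.W405.SG.CH
import Pool.Agent.W403.SG.LIE
import Pool.Agent.W91.SG.J1
import Pool.Agent.W708.SG.Alg
import Pool.Agent.W828.SG.Inv
import Pool.Agent.W705.SG.TAY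
import Pool.Agent.W962.SG.JJ

/-!
MP_9a3597_al, project SG: the core theorem `S_INF` (no hypotheses).
-/

namespace Pool.Agent.W37.SG

theorem inf : S_INF :=
  inf_of Pool.Agent.W490.SG.main
    Pool.Agent.W140.SG.main
    Pool.Agent.W585.SG.D3.main
    Pool.Agent.W538.SG.D4.main
    Pool.Agent.W303.SG.D5.main
    Pool.Agent.W281.SG.DC.main
    Pool.Agent.W654.SGT.main
    Pool.Agent.W237.SG.X1.main
    Pool.Agent.W237.SG.X2.main
    Pool.Agent.W899.SG.X3.main
    Pool.Agent.W753.SG.main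
    Pool.Agent.W376.SG.main
    Pool.Agent.W563.SG.Lab.main
    Pool.Agent.W465.SG.main
    Pool.Agent.W494.SG.main
    Pool.Agent.W883.SG.Uni.main
    Pool.Agent.W160.SG.Phi.main
    Pool.Agent.W481.SG.main
    Pool.Agent.W465.SG.Abq.main
    Pool.Agent.W577.SG.main
    Pool.Agent.W585.SG.Disp.main
    Pool.Agent.W348.SG.main
    Pool.Agent.W450.SG.LAM.main
    Pool.Agent.W61.SG.DHY.main
    Pool.Agent.W821.SG.main
    Pool.Agent.W804.SG.IRR.main
    Pool.Agent.W418.SG.Par.main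
    Pool.Agent.W405.SG.CH.main
    Pool.Agent.W403.SGLIE.main
    Pool.Agent.W91.SG.main
    Pool.Agent.W708.SG.Alg.main
    Pool.Agent.W828.SG.main
    Pool.Agent.W705.SG.main
    Pool.Agent.W962.SG.main

end Pool.Agent.W37.SG
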