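import Pool.Agent.W37.SG.Defs

/-!
MP_9a3597_al, project SG: statements for the core theorem `S_INF` (no infinite tree group with
all `τ_v ≠ 0` and finite coclass, `p` odd).
-/

namespace Pool.Agent.W37.SG

open scoped BigOperators

/-- Permutations of the sequences. Note that `f ∘ (g * h) = (f ∘ g) ∘ h`. -/
abbrev Pm (p : ℕ) := Equiv.Perm (ℕ → ZMod p)

/-- Functions of a sequence. -/
abbrev Fn (p : ℕ) := (ℕ → ZMod p) → ZMod p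

/-- The monomial `∏ x_j ^ (digit j of i)`. -/
def mon (p i : ℕ) : Fn p := fun x => ∏ j ∈ Finset.range i, x j ^ (i / p ^ j % p)

/-- The span of the first `n` monomials. -/
def U (p n : ℕ) : Submodule (ZMod p) (Fn p) :=
  Submodule.span (ZMod p) {f | ∃ i < n, f = mon p i}

/-- `g` has depth at least `d`. -/
def Dep (p d : ℕ) (g : Pm p) : Prop :=
  ∀ n : ℕ, ∀ f ∈ U p n, (fun x => f (g x) - f x) ∈ U p (n - d)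

/-- the coefficients of `g` at depth `d` are `a i`, `i ≥ d`. -/
def Lead (p d : ℕ) (g : Pm p) (a : ℕ → ZMod p) : Prop :=
  ∀ i, d ≤ i → (fun x => mon p i (g x) - mon p i x - a i * mon p (i - d) x) ∈ U p (i - d)

/-- The commutator `g⁻¹ h⁻¹ g h`. -/
def cm {G : Type*} [Group G] (g h : G) : G := g⁻¹ * h⁻¹ * g * h

/-- lowest nonzero digit of `i` -/
def ed (p i : ℕ) : ZMod p := ((i / p ^ padicValNat p i % p : ℕ) : ZMod p)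

/-- the depth one coefficients -/
noncomputable def cf (p : ℕ) [NeZero p] (i : ℕ) (g : Pm p) : ZMod p :=
  ed p i * ((-1) ^ padicValNat p i * tau p (padicValNat p i) g)

/-! ### Part D -/

/-- SG-D1 -/
def S_D1 : Prop := ∀ (p : ℕ) [Fact p.Prime], ∀ i, mon p i ∉ U p i

/-- SG-D2 -/
def S_D2 : Prop := ∀ (p : ℕ) [Fact p.Prime], ∀ g : Pm p, IsTri p g →
  Dep p 1 g ∧ Lead p 1 g (fun i => cf p i g)

/-- SG-D3 -/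
def S_D3 : Prop := ∀ (p : ℕ) [Fact p.Prime], ∀ (k : ℕ) (f : Fn p),
  f ∈ U p (p ^ k) ↔ ∀ x y : ℕ → ZMod p, (∀ j < k, x j = y j) → f x = f y

/-- SG-D4 -/
def S_D4 : Prop := ∀ (p : ℕ) [Fact p.Prime], ∀ g h : Pm p, IsTri p g → IsTri p h →
  IsTri p (g * h) ∧ IsTri p g⁻¹ ∧ (∀ v, tau p v (g * h) = tau p v g + tau p v h) ∧
  (∀ v, tau p v g⁻¹ = - tau p v g)

/-- SG-D5: the submodules of `U (p^k)` stable under `Q` are the `U n`. -/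
def S_D5 : Prop := S_D1 → S_D2 → ∀ (p : ℕ) [Fact p.Prime], ∀ (k : ℕ) (Q : Subgroup (Pm p)),
  (∀ g ∈ Q, IsTri p g) → (∀ v < k, ∃ g ∈ Q, tau p v g ≠ 0) →
  ∀ W : Submodule (ZMod p) (Fn p), W ≤ U p (p ^ k) → (∀ g ∈ Q, ∀ f ∈ W, (fun x => f (g x)) ∈ W) →
  ∃ n ≤ p ^ k, W = U p n

/-- SG-DC: products, inverses, commutators and `p`-th powers. -/
def S_DC : Prop := ∀ (p : ℕ) [Fact p.Prime], ∀ (d e : ℕ) (g h : Pm p) (a b : ℕ → ZMod p),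
  1 ≤ d → 1 ≤ e → Dep p d g → Dep p e h → Lead p d g a → Lead p e h b →
  (Dep p (d + e) (cm g h) ∧
    Lead p (d + e) (cm g h) (fun i => a i * b (i - d) - b i * a (i - e))) ∧
  (d = e → Dep p d (g * h) ∧ Lead p d (g * h) (fun i => a i + b i)) ∧
  (Dep p d g⁻¹ ∧ Lead p d g⁻¹ (fun i => - a i)) ∧
  (Dep p (p * d) (g ^ p) ∧
    Lead p (p * d) (g ^ p) (fun i => ∏ l ∈ Finset.range p, a (i - l * d)))

/-- SG-TR: truncation. -/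
def S_TR : Prop := ∀ (p : ℕ) [Fact p.Prime], ∀ k : ℕ, ∃ T : Pm p → Pm p,
  (∀ g, IsTri p g → IsTrunc p k g (T g) ∧ IsTri p (T g) ∧ IsLvl p k (T g)) ∧
  (∀ g h, IsTri p g → IsTri p h → T (g * h) = T g * T h) ∧
  (∀ g h, IsTri p g → IsTrunc p k g h → h = T g) ∧
  (∀ g, IsTri p g → (T g = 1 ↔ IsKer p k g)) ∧
  (∀ g, IsTri p g → ∀ f ∈ U p (p ^ k), ∀ x, f (T g x) = f (g x)) ∧
  (∀ g d, IsTri p g → Dep p d g → Dep p d (T g))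

/-- The hypothesis of `S_INF`. -/
structure TreeHyp (p s : ℕ) [Fact p.Prime] (Q : Subgroup (Pm p)) (Qk : ℕ → Subgroup (Pm p)) :
    Prop where
  odd : p ≠ 2
  tri : ∀ g ∈ Q, IsTri p g
  tau_ne : ∀ v, ∃ g ∈ Q, tau p v g ≠ 0
  trunc : ∀ k h, h ∈ Qk k ↔ ∃ g ∈ Q, IsTrunc p k g h
  cc : ∀ k, SubCoclassLE p s (Qk k)

/-- The special element `X`. -/
structure XHyp (p s : ℕ) [Fact p.Prime] (Q : Subgroup (Pm p)) (X : Pm p) : Prop where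
  mem : X ∈ Q
  dep : Dep p (p ^ s) X
  lead : ∃ a : ℕ → ZMod p, Lead p (p ^ s) X a ∧ ∀ i, p ^ s ≤ i → a i ≠ 0
  comm : ∀ g ∈ Q, Dep p (p ^ s + 2) (cm g X)

/-- SG-X1 : for every `v` and every `h ∈ Q` there is an element of `Q` of depth `≥ p^v` whose
coefficient at `i` is `C * cf (p^v * ⌊i/p^v⌋) h`, with the same `C ≠ 0` for all `h`. -/
def S_X1 : Prop := S_D2 → S_D4 → S_DC → ∀ (p : ℕ) [Fact p.Prime], p ≠ 2 → ∀ Q : Subgroup (Pm p),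
  (∀ g ∈ Q, IsTri p g) → (∀ v, ∃ g ∈ Q, tau p v g ≠ 0) →
  ∀ v, ∃ C : ZMod p, C ≠ 0 ∧ ∀ h ∈ Q, ∃ g ∈ Q, Dep p (p ^ v) g ∧
    Lead p (p ^ v) g (fun i => C * cf p (p ^ v * (i / p ^ v)) h)

/-- SG-X2 : proportionality of the `τ_v`, `v ≥ s`. -/
def S_X2 : Prop := S_D1 → S_D2 → S_D3 → S_D4 → S_DC → S_TR → S_X1 →
  ∀ (p : ℕ) [Fact p.Prime] (s : ℕ) (Q : Subgroup (Pm p)) (Qk : ℕ → Subgroup (Pm p)),
  TreeHyp p s Q Qk → ∀ v w, s ≤ v → s ≤ w → ∀ g ∈ Q, ∀ h ∈ Q,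
    tau p v g * tau p w h = tau p v h * tau p w g

/-- SG-X3 : existence of `X`. -/
def S_X3 : Prop := S_D2 → S_D4 → S_DC → S_X1 →
  ∀ (p : ℕ) [Fact p.Prime] (s : ℕ) (Q : Subgroup (Pm p)) (Qk : ℕ → Subgroup (Pm p)),
  TreeHyp p s Q Qk → (∀ v w, s ≤ v → s ≤ w → ∀ g ∈ Q, ∀ h ∈ Q,
    tau p v g * tau p w h = tau p v h * tau p w g) → ∃ X, XHyp p s Q X

/-- SG-XP : the powers `X^(p^m)`. -/
def S_XP : Prop := S_D1 → S_D3 → S_D4 → S_DC →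
  ∀ (p : ℕ) [Fact p.Prime] (s : ℕ) (Q : Subgroup (Pm p)) (X : Pm p), (∀ g ∈ Q, IsTri p g) →
  XHyp p s Q X → ∀ m : ℕ, Dep p (p ^ (s + m)) (X ^ p ^ m) ∧
    (∃ a : ℕ → ZMod p, Lead p (p ^ (s + m)) (X ^ p ^ m) a ∧ ∀ i, p ^ (s + m) ≤ i → a i ≠ 0) ∧
    IsKer p (s + m) (X ^ p ^ m) ∧
    ∃ c : ZMod p, c ≠ 0 ∧ ∀ x, (X ^ p ^ m) x (s + m) = x (s + m) + c

/-- The filtration `Γ` (closure of the lower central series, `Γ 1 = Q`), the levels `n j`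
with `Γ (n j) = Q ∩ Ker j` for `j ≥ j0`, and the dimensions `a j` of the modules of labels. -/
structure GamHyp (p s : ℕ) [Fact p.Prime] (Q : Subgroup (Pm p)) (Γ : ℕ → Subgroup (Pm p))
    (j0 : ℕ) (n a : ℕ → ℕ) : Prop where
  one : Γ 1 = Q
  le : ∀ m, Γ m ≤ Q
  anti : Antitone Γ
  comm : ∀ m m', 1 ≤ m → 1 ≤ m' → ∀ g ∈ Γ m, ∀ h ∈ Γ m', cm g h ∈ Γ (m + m')
  dep : ∀ m, 1 ≤ m → ∀ g ∈ Γ m, Dep p m g
  index : ∀ m, 1 ≤ m → (Γ m).relIndex Q ≠ 0 ∧ (Γ m).relIndex Q ≤ p ^ (m - 1 + s)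
  lab : ∀ j, ∀ f : Fn p, f ∈ U p (a j) ↔
    ∃ g ∈ Q, IsKer p j g ∧ ∀ x, g x j = x j + f x
  ale : ∀ j, a j ≤ p ^ j
  npos : 1 ≤ n j0
  nstep : ∀ j, j0 ≤ j → n (j + 1) = n j + a j
  blk : ∀ j, j0 ≤ j → ∀ r ≤ a j, ∀ g, g ∈ Γ (n j + r) ↔
    g ∈ Q ∧ IsKer p j g ∧ (fun x => g x j - x j) ∈ U p (a j - r)
  next : ∀ m, n j0 ≤ m → ∀ g ∈ Γ m, g ∉ Γ (m + 1) → ∃ h ∈ Q, cm g h ∉ Γ (m + 2)

/-- The classes `c k` of the groups `Qk k`. -/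
structure ClsHyp (p s : ℕ) (Qk : ℕ → Subgroup (Pm p)) (c : ℕ → ℕ) (j0 : ℕ) : Prop where
  cls : ∀ k, IsLeast {i : ℕ | (Qk k).lowerCentralSeries i = ⊥} (c k)
  mono : Monotone c
  unbdd : ∀ N, ∃ k, N ≤ c k
  idx : ∀ k i, ((Qk k).lowerCentralSeries i).relIndex (Qk k) ≠ 0 ∧
    ((Qk k).lowerCentralSeries i).relIndex (Qk k) ≤ p ^ (i + s)
  card : ∀ k i, j0 ≤ k → c j0 ≤ i → i ≤ c k →
    Nat.card ((Qk k).lowerCentralSeries i) = p ^ (c k - i)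
  ker : ∀ j k, j0 ≤ j → j ≤ k → ∀ h, h ∈ (Qk k).lowerCentralSeries (c j) ↔
    h ∈ Qk k ∧ IsKer p j h

/-- SG-CLS -/
def S_CLS : Prop := S_D1 → S_D2 → S_D3 → S_D4 → S_D5 → S_DC → S_TR →
  ∀ (p : ℕ) [Fact p.Prime] (s : ℕ) (Q : Subgroup (Pm p)) (Qk : ℕ → Subgroup (Pm p)),
  TreeHyp p s Q Qk → ∃ c j0, ClsHyp p s Qk c j0

/-- SG-LAB -/
def S_LAB : Prop := S_D1 → S_D2 → S_D3 → S_D4 → S_D5 →
  ∀ (p : ℕ) [Fact p.Prime] (Q : Subgroup (Pm p)),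
  (∀ g ∈ Q, IsTri p g) → (∀ v, ∃ g ∈ Q, tau p v g ≠ 0) →
  ∃ a : ℕ → ℕ, (∀ j, ∀ f : Fn p, f ∈ U p (a j) ↔
    ∃ g ∈ Q, IsKer p j g ∧ ∀ x, g x j = x j + f x) ∧ ∀ j, a j ≤ p ^ j

/-- SG-GAM -/
def S_GAM : Prop := S_D1 → S_D2 → S_D3 → S_D4 → S_D5 → S_DC → S_TR → S_CLS → S_LAB →
  ∀ (p : ℕ) [Fact p.Prime] (s : ℕ) (Q : Subgroup (Pm p)) (Qk : ℕ → Subgroup (Pm p)),
  TreeHyp p s Q Qk → ∃ (Γ : ℕ → Subgroup (Pm p)) (j0 : ℕ) (n a : ℕ → ℕ),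
    GamHyp p s Q Γ j0 n a

/-- SG-BND -/
def S_BND : Prop := S_D1 → S_D2 → S_D3 → S_D4 → S_DC → S_XP →
  ∀ (p : ℕ) [Fact p.Prime] (s : ℕ) (Q : Subgroup (Pm p)) (X : Pm p)
    (Γ : ℕ → Subgroup (Pm p)) (j0 : ℕ) (n a : ℕ → ℕ), p ≠ 2 → (∀ g ∈ Q, IsTri p g) →
  (∀ v, ∃ g ∈ Q, tau p v g ≠ 0) →
  XHyp p s Q X → GamHyp p s Q Γ j0 n a → ∀ j, j0 ≤ j → s ≤ j → a (j + 1) ≤ p ^ (2 * s + p ^ s)

/-- SG-UNI -/
def S_UNI : Prop := S_D1 → S_D2 → S_D3 → S_D4 → S_D5 → S_DC → S_XP →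
  ∀ (p : ℕ) [Fact p.Prime] (s : ℕ) (Q : Subgroup (Pm p)) (X : Pm p)
    (Γ : ℕ → Subgroup (Pm p)) (j0 : ℕ) (n a : ℕ → ℕ) (B : ℕ), (∀ g ∈ Q, IsTri p g) →
  (∀ v, ∃ g ∈ Q, tau p v g ≠ 0) →
  XHyp p s Q X → GamHyp p s Q Γ j0 n a → (∀ j, j0 ≤ j → s ≤ j → a (j + 1) ≤ B) →
  ∃ J α : ℕ, s ≤ J ∧ j0 ≤ J ∧ 1 ≤ α ∧ ∀ j, J ≤ j → a j = α

end Pool.Agent.W37.SG
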