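import Pool.Agent.W37.SG.Stm

/-!
MP_9a3597_al, project SG: statements for the second half of the core theorem `S_INF`.
-/

namespace Pool.Agent.W37.SG

open scoped BigOperators PowerSeries

/-- `x` and `y` agree on the coordinates `< k`. -/
def Agr (p k : ℕ) (x y : ℕ → ZMod p) : Prop := ∀ j < k, x j = y j

/-- `p`-adic integer valued functions. -/
abbrev Zf (p : ℕ) [Fact p.Prime] := (ℕ → ZMod p) → ℤ_[p]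

/-- `p`-adic valued functions. -/
abbrev Qf (p : ℕ) [Fact p.Prime] := (ℕ → ZMod p) → ℚ_[p]

/-- reduction mod `p` -/
noncomputable def rd (p : ℕ) [Fact p.Prime] (f : Zf p) : Fn p := fun x => PadicInt.toZMod (f x)

/-- The chart `Φ`: on every level `s` fibre it identifies the `X`-orbits with `ℤ_p`. -/
structure ChartHyp (p s : ℕ) [Fact p.Prime] (X : Pm p) (Φ : Zf p) : Prop where
  base : ∀ m x y, Agr p s x y → (Agr p (s + m) x y ↔ (p : ℤ_[p]) ^ m ∣ Φ x - Φ y)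
  shift : ∀ x, Φ (X x) = Φ x + 1
  surj : ∀ x (z : ℤ_[p]), ∃ y, Agr p s x y ∧ Φ y = z

/-- SG-PHI -/
def S_PHI : Prop := S_D1 → S_D3 → S_D4 → S_DC → S_XP →
  ∀ (p : ℕ) [Fact p.Prime] (s : ℕ) (Q : Subgroup (Pm p)) (X : Pm p), (∀ g ∈ Q, IsTri p g) →
  XHyp p s Q X → ∃ Φ : Zf p, ChartHyp p s X Φ

/-- SG-TRANS -/
def S_TRANS : Prop := S_D4 → ∀ (p : ℕ) [Fact p.Prime] (Q : Subgroup (Pm p)),
  (∀ g ∈ Q, IsTri p g) → (∀ v, ∃ g ∈ Q, tau p v g ≠ 0) →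
  ∀ (k : ℕ) (x y : ℕ → ZMod p), ∃ g ∈ Q, Agr p k (g x) y

/-- SG-ABQ: abelian quotients of `Q`. -/
def S_ABQ : Prop := S_D1 → S_D2 → S_D3 → S_D4 → S_D5 → S_DC → S_TR → S_CLS →
  ∀ (p : ℕ) [Fact p.Prime] (s : ℕ) (Q : Subgroup (Pm p)) (Qk : ℕ → Subgroup (Pm p)),
  TreeHyp p s Q Qk → ∀ (k r : ℕ) (T : Pm p → ZMod (p ^ r)),
  (∀ g ∈ Q, ∀ h ∈ Q, T (g * h) = T g + T h) → (∀ g ∈ Q, IsKer p k g → T g = 0) →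
  (∃ g ∈ Q, IsUnit (T g)) → r ≤ s + 1

/-- The situation where all the `a j`, `j ≥ J`, are equal to `α`. -/
structure AHyp (p s : ℕ) [Fact p.Prime] (Q : Subgroup (Pm p)) (X : Pm p) (J α : ℕ) : Prop where
  sJ : s ≤ J
  apos : 1 ≤ α
  lab : ∀ j, J ≤ j → ∀ f : Fn p, f ∈ U p α ↔
    ∃ g ∈ Q, IsKer p j g ∧ ∀ x, g x j = x j + f x
  comm : ∀ i j, J ≤ i → J ≤ j → ∀ g ∈ Q, ∀ h ∈ Q, IsKer p i g → IsKer p j h →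
    IsKer p (i + j - J) (cm g h)
  top : ∀ j, J ≤ j → ∃ h ∈ Q,
    (fun x => (cm (X ^ p ^ (j - s)) h) x (j + 1) - x (j + 1)) ∉ U p (α - 1)
  nc : ∀ i, J ≤ i → ∀ N : Subgroup (Pm p), (∀ g ∈ N, g ∈ Q) →
    (∀ g ∈ N, ∀ h ∈ Q, h⁻¹ * g * h ∈ N) → X ^ p ^ (i - s) ∈ N →
    ∀ k, ∀ g ∈ Q, IsKer p (i + 1) g → ∃ h ∈ N, IsKer p k (h⁻¹ * g)

/-- SG-AC -/
def S_AC : Prop := S_D1 → S_D2 → S_D3 → S_D4 → S_DC → S_XP →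
  ∀ (p : ℕ) [Fact p.Prime] (s : ℕ) (Q : Subgroup (Pm p)) (X : Pm p)
    (Γ : ℕ → Subgroup (Pm p)) (j0 : ℕ) (n a : ℕ → ℕ) (J α : ℕ), (∀ g ∈ Q, IsTri p g) →
  XHyp p s Q X → GamHyp p s Q Γ j0 n a → s ≤ J → j0 ≤ J → 1 ≤ α → (∀ j, J ≤ j → a j = α) →
  AHyp p s Q X J α

/-- The common hypotheses of what follows. -/
structure BHyp (p s : ℕ) [Fact p.Prime] (Q : Subgroup (Pm p)) (X : Pm p) (J α : ℕ)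
    (Φ : Zf p) : Prop where
  odd : p ≠ 2
  tri : ∀ g ∈ Q, IsTri p g
  tau_ne : ∀ v, ∃ g ∈ Q, tau p v g ≠ 0
  XQ : X ∈ Q
  xp : ∀ j, s ≤ j → IsKer p j (X ^ p ^ (j - s)) ∧
    ∃ c : ZMod p, c ≠ 0 ∧ ∀ x, (X ^ p ^ (j - s)) x j = x j + c
  A : AHyp p s Q X J α
  chart : ChartHyp p s X Φ

/-- SG-DISP -/
def S_DISP : Prop := S_D4 → ∀ (p : ℕ) [Fact p.Prime] (s : ℕ) (Q : Subgroup (Pm p)) (X : Pm p)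
    (J α : ℕ) (Φ : Zf p), BHyp p s Q X J α Φ →
  ∀ i j, J ≤ i → J ≤ j → ∀ u ∈ Q, IsKer p j u → ∀ x y, Agr p i x y →
    (p : ℤ_[p]) ^ (i + j - J - s) ∣ (Φ (u x) - Φ x) - (Φ (u y) - Φ y)

/-- The functions `e_g`. -/
structure EHyp (p s : ℕ) [Fact p.Prime] (Q : Subgroup (Pm p)) (X : Pm p) (J : ℕ)
    (Φ : Zf p) (e : Pm p → Zf p) : Prop where
  lim : ∀ g ∈ Q, ∀ j, J ≤ j → ∀ x, (p : ℤ_[p]) ^ (2 * j - J - s - 1) ∣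
    (Φ ((g⁻¹ * X ^ p ^ (j - s) * g) x) - Φ x) - (p : ℤ_[p]) ^ (j - s) * e g x
  one : ∀ g ∈ Q, ∀ x, (p : ℤ_[p]) ∣ e g x - 1
  mul : ∀ g ∈ Q, ∀ h ∈ Q, ∀ x, e (g * h) x = e g (h x) * e h x
  X1 : ∀ x, e X x = 1
  gd : ∀ g ∈ Q, ∀ i, J ≤ i → ∀ x y, Agr p i x y → (p : ℤ_[p]) ^ (2 * i - J - s - 1) ∣
    (Φ y - Φ x) - e g x * (Φ (g y) - Φ (g x))

/-- SG-EE -/
def S_EE : Prop := S_D4 → S_DISP → ∀ (p : ℕ) [Fact p.Prime] (s : ℕ) (Q : Subgroup (Pm p))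
    (X : Pm p) (J α : ℕ) (Φ : Zf p), BHyp p s Q X J α Φ → ∃ e, EHyp p s Q X J Φ e

/-- The lattice `Λ` of `p`-adic vector fields. -/
structure LHyp (p : ℕ) [Fact p.Prime] (Q : Subgroup (Pm p)) (J α : ℕ)
    (e : Pm p → Zf p) (Λ : Submodule ℤ_[p] (Zf p)) : Prop where
  one_mem : (fun _ => 1) ∈ Λ
  red : ∀ f ∈ Λ, rd p f ∈ U p α
  surj : ∀ φ ∈ U p α, ∃ f ∈ Λ, rd p f = φ
  pure : ∀ f ∈ Λ, (∀ x, (p : ℤ_[p]) ∣ f x) → ∃ h ∈ Λ, ∀ x, f x = p * h x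
  closed : ∀ f, (∀ R : ℕ, ∃ h ∈ Λ, ∀ x, (p : ℤ_[p]) ^ R ∣ f x - h x) → f ∈ Λ
  act : ∀ g ∈ Q, ∀ f ∈ Λ, (fun x => f (g x) * e g x) ∈ Λ
  lip : ∀ f ∈ Λ, ∀ i, J ≤ i → ∀ x y, Agr p i x y → (p : ℤ_[p]) ^ (i - J) ∣ f x - f y
  top : ∃ h ∈ Q, ∃ f ∈ Λ, (∀ x, e h x = 1 + p * f x) ∧ rd p f ∉ U p (α - 1)

/-- SG-LAM -/
def S_LAM : Prop := S_D4 → S_DISP → ∀ (p : ℕ) [Fact p.Prime] (s : ℕ) (Q : Subgroup (Pm p))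
    (X : Pm p) (J α : ℕ) (Φ : Zf p) (e : Pm p → Zf p), BHyp p s Q X J α Φ →
  EHyp p s Q X J Φ e → ∃ Λ, LHyp p Q J α e Λ

/-- The derivation `D` on `Λ`. -/
structure DHyp (p s : ℕ) [Fact p.Prime] (J : ℕ) (Φ : Zf p) (Λ : Submodule ℤ_[p] (Zf p))
    (D : Zf p → Zf p) : Prop where
  mem : ∀ f ∈ Λ, D f ∈ Λ
  sd : ∀ f ∈ Λ, ∀ i, J ≤ i → ∀ x y, Agr p i x y → (p : ℤ_[p]) ^ (2 * i - J - s) ∣
    (p : ℤ_[p]) ^ (J - s) * (f y - f x) - (Φ y - Φ x) * D f x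

/-- SG-DHY -/
def S_DHY : Prop := S_D4 → ∀ (p : ℕ) [Fact p.Prime] (s : ℕ) (Q : Subgroup (Pm p))
    (X : Pm p) (J α : ℕ) (Φ : Zf p) (e : Pm p → Zf p) (Λ : Submodule ℤ_[p] (Zf p)),
  BHyp p s Q X J α Φ → EHyp p s Q X J Φ e → LHyp p Q J α e Λ → ∃ D, DHyp p s J Φ Λ D

/-- SG-AB: the case `D = 0`. -/
def S_AB : Prop := S_D1 → S_D2 → S_D3 → S_D4 → S_DC → S_TRANS →
  ∀ (p : ℕ) [Fact p.Prime] (s : ℕ) (Q : Subgroup (Pm p))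
    (X : Pm p) (J α : ℕ) (Φ : Zf p) (e : Pm p → Zf p) (Λ : Submodule ℤ_[p] (Zf p))
    (D : Zf p → Zf p),
  BHyp p s Q X J α Φ → EHyp p s Q X J Φ e → LHyp p Q J α e Λ → DHyp p s J Φ Λ D →
  (∀ f ∈ Λ, ∀ x, D f x = 0) →
  ∃ (k : ℕ) (T : Pm p → ZMod (p ^ (s + 2))),
    (∀ g ∈ Q, ∀ h ∈ Q, T (g * h) = T g + T h) ∧ (∀ g ∈ Q, IsKer p k g → T g = 0) ∧
    (∃ g ∈ Q, IsUnit (T g))

/-- An abstract uniserial chain of `ℤ_p`-lattices with a set `𝒢` of operators. -/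
structure ChainHyp (p α : ℕ) [Fact p.Prime] (V : Type) [AddCommGroup V] [Module ℚ_[p] V]
    (C : ℤ → AddSubgroup V) (𝒢 : Set (V →ₗ[ℚ_[p]] V)) : Prop where
  basis : ∃ b : Module.Basis (Fin α) ℚ_[p] V, ∀ x, x ∈ C 0 ↔ ∀ i, ‖b.repr x i‖ ≤ 1
  anti : ∀ n, C (n + 1) ≤ C n
  per : ∀ n x, x ∈ C (n + α) ↔ ∃ y ∈ C n, x = (p : ℚ_[p]) • y
  step : ∀ n, ∀ x ∈ C n, x ∉ C (n + 1) → ∀ y ∈ C n, ∃ j : ℕ, y - j • x ∈ C (n + 1)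
  ne : ∀ n, ∃ x ∈ C n, x ∉ C (n + 1)
  inv : ∀ g ∈ 𝒢, ∃ g' ∈ 𝒢, g ∘ₗ g' = LinearMap.id
  nil : ∀ g ∈ 𝒢, ∀ n, ∀ x ∈ C n, g x - x ∈ C (n + 1)
  uni : ∀ n, ∀ x ∈ C n, x ∉ C (n + 1) → ∃ g ∈ 𝒢, g x - x ∉ C (n + 2)

/-- SG-IRR -/
def S_IRR : Prop := ∀ (p α : ℕ) [Fact p.Prime] (V : Type) [AddCommGroup V] [Module ℚ_[p] V]
    (C : ℤ → AddSubgroup V) (𝒢 : Set (V →ₗ[ℚ_[p]] V)), 1 ≤ α → ChainHyp p α V C 𝒢 →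
  ∀ W : Submodule ℚ_[p] V, (∀ g ∈ 𝒢, ∀ w ∈ W, g w ∈ W) → W = ⊥ ∨ W = ⊤

/-- SG-PAR: the parity lemma. -/
def S_PAR : Prop := ∀ (p α : ℕ) [Fact p.Prime] (V : Type) [AddCommGroup V] [Module ℚ_[p] V]
    (C : ℤ → AddSubgroup V) (𝒢 : Set (V →ₗ[ℚ_[p]] V)), p ≠ 2 → Odd α →
  ChainHyp p α V C 𝒢 → ∀ K : V →ₗ[ℚ_[p]] V →ₗ[ℚ_[p]] ℚ_[p], (∀ x y, K x y = K y x) →
  (∀ g ∈ 𝒢, ∀ x y, K (g x) (g y) = K x y) → (∀ x, (∀ y, K x y = 0) → x = 0) → False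

/-- The `ℚ_p`-space spanned by `Λ`. -/
noncomputable def LQ (p : ℕ) [Fact p.Prime] (Λ : Submodule ℤ_[p] (Zf p)) : Submodule ℚ_[p] (Qf p) :=
  Submodule.span ℚ_[p] {F | ∃ f ∈ Λ, F = fun x => (f x : ℚ_[p])}

/-- The operators of `Q` on the subspace `L`. -/
def Ops (p : ℕ) [Fact p.Prime] (Q : Subgroup (Pm p)) (L : Submodule ℚ_[p] (Qf p))
    (E : Pm p → Qf p) : Set (L →ₗ[ℚ_[p]] L) :=
  {A | ∃ g ∈ Q, ∀ f : L, ∀ x, (A f : Qf p) x = (f : Qf p) (g x) * E g x}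

/-- SG-CH -/
def S_CH : Prop := S_D1 → S_D2 → S_D3 → S_D4 → S_D5 →
  ∀ (p : ℕ) [Fact p.Prime] (s : ℕ) (Q : Subgroup (Pm p))
    (X : Pm p) (J α : ℕ) (Φ : Zf p) (e : Pm p → Zf p) (Λ : Submodule ℤ_[p] (Zf p)),
  BHyp p s Q X J α Φ → EHyp p s Q X J Φ e → LHyp p Q J α e Λ →
  ∃ C, ChainHyp p α (LQ p Λ) C (Ops p Q (LQ p Λ) (fun g x => (e g x : ℚ_[p])))

/-- The constant function `1`. -/
noncomputable def oneF (p : ℕ) [Fact p.Prime] : Qf p := fun _ => 1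

/-- The function `f ∘ g` times `E g`. -/
noncomputable def actF (p : ℕ) [Fact p.Prime] (E : Pm p → Qf p) (g : Pm p) (f : Qf p) : Qf p :=
  fun x => f (g x) * E g x

/-- The bracket. -/
noncomputable def brk (p : ℕ) [Fact p.Prime] (D : Qf p → Qf p) (f h : Qf p) : Qf p :=
  fun x => f x * D h x - h x * D f x

/-- The Lie algebra of vector fields. -/
structure LieHyp (p : ℕ) [Fact p.Prime] (Q : Subgroup (Pm p)) (L : Submodule ℚ_[p] (Qf p))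
    (E : Pm p → Qf p) (D : Qf p → Qf p) : Prop where
  fd : FiniteDimensional ℚ_[p] L
  one_mem : oneF p ∈ L
  cont : ∀ f ∈ L, ∀ R : ℕ, ∃ k : ℕ, ∀ x y, Agr p k x y → ‖f x - f y‖ ≤ (p : ℝ) ^ (-(R : ℤ))
  Dmem : ∀ f ∈ L, D f ∈ L
  Dadd : ∀ f ∈ L, ∀ h ∈ L, D (f + h) = D f + D h
  Dsmul : ∀ (c : ℚ_[p]), ∀ f ∈ L, D (c • f) = c • D f
  D1 : D (oneF p) = 0
  br : ∀ f ∈ L, ∀ h ∈ L, brk p D f h ∈ L ∧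
    D (brk p D f h) = fun x => f x * D (D h) x - h x * D (D f) x
  E_ne : ∀ g ∈ Q, ∀ x, E g x ≠ 0
  E_mul : ∀ g ∈ Q, ∀ h ∈ Q, ∀ x, E (g * h) x = E g (h x) * E h x
  act : ∀ g ∈ Q, ∀ f ∈ L, actF p E g f ∈ L
  comp : ∀ g ∈ Q, ∀ f ∈ L, D (actF p E g f) = fun x => D f (g x) + f (g x) * D (E g) x
  irr : ∀ W : Submodule ℚ_[p] (Qf p), W ≤ L →
    (∀ g ∈ Q, ∀ f ∈ W, actF p E g f ∈ W) → W = ⊥ ∨ W = L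

/-- SG-LIE -/
def S_LIE : Prop := S_D4 → S_IRR →
  ∀ (p : ℕ) [Fact p.Prime] (s : ℕ) (Q : Subgroup (Pm p))
    (X : Pm p) (J α : ℕ) (Φ : Zf p) (e : Pm p → Zf p) (Λ : Submodule ℤ_[p] (Zf p))
    (D : Zf p → Zf p) (C : ℤ → AddSubgroup (LQ p Λ)),
  BHyp p s Q X J α Φ → EHyp p s Q X J Φ e → LHyp p Q J α e Λ → DHyp p s J Φ Λ D →
  ChainHyp p α (LQ p Λ) C (Ops p Q (LQ p Λ) (fun g x => (e g x : ℚ_[p]))) →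
  ∃ DQ : Qf p → Qf p, LieHyp p Q (LQ p Λ) (fun g x => (e g x : ℚ_[p])) DQ ∧
    ∀ f ∈ Λ, DQ (fun x => (f x : ℚ_[p])) = fun x => (D f x : ℚ_[p])

/-- SG-J1: finite dimensional spaces of power series closed under derivative and bracket. -/
def S_J1 : Prop := ∀ (F : Type) [Field F] [CharZero F] (N : Submodule F F⟦X⟧),
  FiniteDimensional F N → 1 ∈ N → (∀ f ∈ N, PowerSeries.derivative F f ∈ N) →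
  (∀ f ∈ N, ∀ g ∈ N, f * PowerSeries.derivative F g - g * PowerSeries.derivative F f ∈ N) →
  N = Submodule.span F {1} ∨
  (∃ e ∈ N, PowerSeries.coeff 0 e = 0 ∧ PowerSeries.coeff 1 e = 1 ∧
    N = Submodule.span F {1, e}) ∨
  (∃ e₁ ∈ N, ∃ e₂ ∈ N, ∃ β : F, N = Submodule.span F {1, e₁, e₂} ∧
    PowerSeries.coeff 0 e₁ = 0 ∧ PowerSeries.coeff 1 e₁ = 1 ∧ PowerSeries.coeff 2 e₁ = 0 ∧
    PowerSeries.coeff 0 e₂ = 0 ∧ PowerSeries.coeff 1 e₂ = 0 ∧ PowerSeries.coeff 2 e₂ = 1 ∧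
    PowerSeries.derivative F e₁ = 1 + β • e₂ ∧ PowerSeries.derivative F e₂ = 2 * e₁ ∧
    e₁ * PowerSeries.derivative F e₂ - e₂ * PowerSeries.derivative F e₁ = e₂)

/-- SG-ALG: a perfect algebra with enough three dimensional simple quotients. -/
def S_ALG : Prop := ∀ (F : Type) [Field F] [CharZero F] (V : Type) [AddCommGroup V]
    [Module F V] [FiniteDimensional F V] (B : V →ₗ[F] V →ₗ[F] V), (∀ x y, B x y = - B y x) →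
  ∀ 𝓘 : Set (Submodule F V), 𝓘.Nonempty → (∀ x, (∀ I ∈ 𝓘, x ∈ I) → x = 0) →
  (∀ I ∈ 𝓘, (∀ x ∈ I, ∀ y, B x y ∈ I) ∧ ∃ (u e₁ e₂ : V) (β : F),
    (∀ x, ∃ a b c : F, x - a • u - b • e₁ - c • e₂ ∈ I) ∧
    (∀ a b c : F, a • u + b • e₁ + c • e₂ ∈ I → a = 0 ∧ b = 0 ∧ c = 0) ∧
    B u e₁ - u - β • e₂ ∈ I ∧ B u e₂ - (2 : F) • e₁ ∈ I ∧ B e₁ e₂ - e₂ ∈ I) →
  𝓘.Finite ∧ Module.finrank F V = 3 * 𝓘.ncard ∧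
    ∃ x y, LinearMap.trace F V (B x ∘ₗ B y) ≠ 0

/-- `f` is in the ideal `I_x`: all its iterated derivatives vanish at `x`. -/
def InI (p : ℕ) [Fact p.Prime] (D : Qf p → Qf p) (x : ℕ → ZMod p) (f : Qf p) : Prop :=
  ∀ n : ℕ, (D^[n] f) x = 0

/-- SG-INV: the ideals `I_x`. -/
def S_INV : Prop := ∀ (p : ℕ) [Fact p.Prime] (Q : Subgroup (Pm p))
    (L : Submodule ℚ_[p] (Qf p)) (E : Pm p → Qf p) (D : Qf p → Qf p), LieHyp p Q L E D →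
  (∀ x, ∀ f ∈ L, InI p D x f → ∀ h ∈ L, InI p D x (brk p D f h)) ∧
  (∀ x, ∀ f ∈ L, InI p D x f → InI p D x (D f)) ∧
  (∀ g ∈ Q, ∀ f ∈ L, ∀ h ∈ L, brk p D (actF p E g f) (actF p E g h) =
    actF p E g (brk p D f h)) ∧
  (∀ g ∈ Q, ∀ x, ∀ f ∈ L, InI p D (g x) f ↔ InI p D x (actF p E g f))

/-- SG-TAY: the quotient by `I_x` is three dimensional. -/
def S_TAY : Prop := S_D4 → S_TRANS → S_J1 → S_INV →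
  ∀ (p : ℕ) [Fact p.Prime] (Q : Subgroup (Pm p))
    (L : Submodule ℚ_[p] (Qf p)) (E : Pm p → Qf p) (D : Qf p → Qf p),
  (∀ g ∈ Q, IsTri p g) → (∀ v, ∃ g ∈ Q, tau p v g ≠ 0) → LieHyp p Q L E D →
  (∃ f ∈ L, D f ≠ 0) → ∀ x, ∃ e₁ ∈ L, ∃ e₂ ∈ L, ∃ β : ℚ_[p],
    (∀ f ∈ L, ∃ a b c : ℚ_[p], InI p D x (f - a • oneF p - b • e₁ - c • e₂)) ∧
    (∀ a b c : ℚ_[p], InI p D x (a • oneF p + b • e₁ + c • e₂) →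
      a = 0 ∧ b = 0 ∧ c = 0) ∧
    InI p D x (brk p D (oneF p) e₁ - oneF p - β • e₂) ∧
    InI p D x (brk p D (oneF p) e₂ - (2 : ℚ_[p]) • e₁) ∧
    InI p D x (brk p D e₁ e₂ - e₂)

/-- SG-JJ: the case `D ≠ 0` is impossible. -/
def S_JJ : Prop := S_D4 → S_TRANS → S_INV → S_TAY → S_J1 → S_ALG → S_PAR →
  ∀ (p : ℕ) [Fact p.Prime] (Q : Subgroup (Pm p)) (α : ℕ)
    (L : Submodule ℚ_[p] (Qf p)) (E : Pm p → Qf p) (D : Qf p → Qf p) (C : ℤ → AddSubgroup L),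
  p ≠ 2 → (∀ g ∈ Q, IsTri p g) → (∀ v, ∃ g ∈ Q, tau p v g ≠ 0) → LieHyp p Q L E D →
  ChainHyp p α L C (Ops p Q L E) → (∃ f ∈ L, D f ≠ 0) → False

end Pool.Agent.W37.SG
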